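import Mathlib
import Pool.Agent.P.MP_768819_an.Asym

namespace Pool.Agent.Results.MP_768819_an.AsymmetricSharp

open Finset Pool.Agent.P.MP_768819_an.Asym

universe u

/-- Fix a real `s ≥ 1`. Consider real vector spaces `X` with an asymmetric norm `N`
(subadditive, positively homogeneous, positive off `0`) whose asymmetry is at most `s`, that is
`N (-x) ≤ s * N x`. A real `c` is a lower bound for the `N`-length of every Hamiltonian circuit
through points of the unit sphere of `N` whose convex hull contains `0` if and only if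
`c ≤ 2 + 2 / s`. `finRotate r` is the cyclic shift `k ↦ k + 1 mod r` on `Fin r`. -/
theorem result (s c : ℝ) (hs : 1 ≤ s) :
    (∀ (X : Type u) [AddCommGroup X] [Module ℝ X] (N : X → ℝ),
      (∀ x y : X, N (x + y) ≤ N x + N y) →
      (∀ (a : ℝ) (x : X), 0 ≤ a → N (a • x) = a * N x) →
      (∀ x : X, x ≠ 0 → 0 < N x) →
      (∀ x : X, N (-x) ≤ s * N x) →
      ∀ r : ℕ, 2 ≤ r → ∀ p : Fin r → X, (∀ i, N (p i) = 1) →
        (0 : X) ∈ convexHull ℝ (Set.range p) → ∀ σ : Equiv.Perm (Fin r),
          c ≤ ∑ k : Fin r, N (p (σ (finRotate r k)) - p (σ k))) ↔ c ≤ 2 + 2 / s := by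
  constructor
  · intro H
    by_contra hc
    obtain ⟨a, b, hb, hab, hsb, hlt⟩ := exists_ab s c hs (not_le.mp hc)
    obtain ⟨n, hn⟩ : ∃ n, a + b = n + 1 := ⟨a + b - 1, by omega⟩
    obtain ⟨p, hp1, hp0, hpL⟩ := example_ab a b n hn hb hab
    have hb' : (0 : ℝ) < b := by exact_mod_cast hb
    have hab' : (b : ℝ) ≤ a := by exact_mod_cast hab
    let e : (Fin (n + 1) → ℝ) ≃ₗ[ℝ] ULift.{u} (Fin (n + 1) → ℝ) := ULift.moduleEquiv.symm
    have key := H (ULift.{u} (Fin (n + 1) → ℝ)) (fun x => G n a b (e.symm x))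
      (fun x y => by rw [map_add]; exact G_add _ _ _ _ _)
      (fun t x ht => by rw [map_smul]; exact G_smul _ _ _ _ _ ht)
      (fun x hx => G_pos _ _ _ (by linarith) hb' _ (by simpa using hx))
      (fun x => by rw [map_neg]; exact G_neg _ _ _ _ hb' hab' hsb _)
      (n + 1) (by omega) (fun j => e (p j)) (fun j => by simpa using hp1 j)
      (by
        have h1 : Set.range (fun j => e (p j)) = e.toLinearMap '' Set.range p := by
          rw [← Set.range_comp]; rfl
        rw [h1, ← LinearMap.image_convexHull]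
        exact ⟨0, hp0, map_zero _⟩) 1
    simp only [Equiv.Perm.coe_one, id_eq, map_sub, LinearEquiv.symm_apply_apply] at key
    linarith
  · intro hc X _ _ N hadd hsm _ hneg r hr p hp h0 σ
    exact hc.trans (lower_fin N hadd hsm s hs hneg r hr p hp h0 σ)

end Pool.Agent.Results.MP_768819_an.AsymmetricSharp
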